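import Mathlib

/-! Alternating words in a free product of two groups. -/

set_option autoImplicit false

namespace Pool.Agent.P.MP_67c9d4_al.VT

open Monoid Monoid.Coprod

variable {A B : Type} [Group A] [Group B]

/-- The product of an alternating word. -/
def alt (L : List (A × B)) : Monoid.Coprod A B := (L.map fun p => inl p.1 * inr p.2).prod

lemma alt_nil : alt ([] : List (A × B)) = 1 := rfl

lemma alt_cons (p : A × B) (L : List (A × B)) : alt (p :: L) = inl p.1 * inr p.2 * alt L := by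
  simp [alt]

lemma alt_append (L L' : List (A × B)) : alt (L ++ L') = alt L * alt L' := by
  simp [alt]

lemma alt_surj (h : Monoid.Coprod A B) : ∃ L, alt L = h := by
  induction h using Monoid.Coprod.induction_on with
  | inl a => exact ⟨[(a, 1)], by simp [alt]⟩
  | inr b => exact ⟨[(1, b)], by simp [alt]⟩
  | mul x y hx hy =>
    obtain ⟨L, rfl⟩ := hx
    obtain ⟨L', rfl⟩ := hy
    exact ⟨L ++ L', alt_append L L'⟩

lemma alt_map {A' B' : Type} [Group A'] [Group B'] (f : A →* A') (g : B →* B')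
    (L : List (A × B)) : Monoid.Coprod.map f g (alt L) = alt (L.map (Prod.map f g)) := by
  induction L with
  | nil => exact map_one _
  | cons p L ih => rw [List.map_cons, alt_cons, alt_cons, map_mul, map_mul, ih]; rfl

lemma alt_word (L : List (A × B)) (h : ∀ p ∈ L, p.1 ≠ 1 ∧ p.2 ≠ 1) :
    ∃ w : CoprodI.Word fun _ : Bool => A × B, w.fstIdx ≠ some false ∧
      w.toList.length = 2 * L.length ∧
      w.prod = Monoid.Coprod.lift ((CoprodI.of (i := true)).comp (MonoidHom.inl A B))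
        ((CoprodI.of (i := false)).comp (MonoidHom.inr A B)) (alt L) := by
  induction L with
  | nil => exact ⟨CoprodI.Word.empty, by simp [CoprodI.Word.fstIdx, CoprodI.Word.empty], rfl,
      (map_one _).symm⟩
  | cons p L ih =>
    obtain ⟨w, h1, h2, h3⟩ := ih fun q hq => h q (List.mem_cons_of_mem _ hq)
    obtain ⟨a, b⟩ := h p List.mem_cons_self
    have b' : ((1, p.2) : A × B) ≠ 1 := fun e => b (congrArg Prod.snd e)
    have a' : ((p.1, 1) : A × B) ≠ 1 := fun e => a (congrArg Prod.fst e)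
    have h4 : (CoprodI.Word.cons (i := false) ((1, p.2) : A × B) w h1 b').fstIdx ≠ some true := by
      simp
    refine ⟨CoprodI.Word.cons (i := true) ((p.1, 1) : A × B) _ h4 a', by simp, ?_, ?_⟩
    · simp [CoprodI.Word.cons, h2, mul_add]
    · rw [CoprodI.Word.prod_cons, CoprodI.Word.prod_cons, h3, alt_cons, map_mul, map_mul, mul_assoc]
      rfl

lemma alt_ne_one {L : List (A × B)} (hL : L ≠ []) (h : ∀ p ∈ L, p.1 ≠ 1 ∧ p.2 ≠ 1) :
    alt L ≠ 1 := by
  classical
  intro e
  obtain ⟨w, -, h2, h3⟩ := alt_word L h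
  rw [e, map_one] at h3
  have : w = CoprodI.Word.empty :=
    (CoprodI.Word.equiv (M := fun _ : Bool => A × B)).symm.injective h3
  rw [this] at h2
  exact hL (List.length_eq_zero_iff.1 (by simpa [CoprodI.Word.empty] using h2.symm))

lemma alt_inf {L : List (A × B)} (hL : L ≠ []) (h : ∀ p ∈ L, p.1 ≠ 1 ∧ p.2 ≠ 1) :
    ¬IsOfFinOrder (alt L) := by
  have key : ∀ n : ℕ, ∃ L' : List (A × B), (∀ p ∈ L', p ∈ L) ∧ alt L ^ n = alt L' := fun n => by
    induction n with
    | zero => exact ⟨[], fun _ h => (List.not_mem_nil h).elim, pow_zero _⟩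
    | succ n ih =>
      obtain ⟨L', h1, h2⟩ := ih
      exact ⟨L' ++ L, fun p hp => (List.mem_append.1 hp).elim (h1 p) id, by
        rw [pow_succ, h2, alt_append]⟩
  intro e
  obtain ⟨n, hn, e⟩ := isOfFinOrder_iff_pow_eq_one.1 e
  obtain ⟨n, rfl⟩ := Nat.exists_eq_succ_of_ne_zero hn.ne'
  obtain ⟨L', h1, h2⟩ := key n
  rw [pow_succ, h2, ← alt_append] at e
  exact alt_ne_one (by simp [hL])
    (fun p hp => (List.mem_append.1 hp).elim (fun q => h p (h1 p q)) (h p)) e

lemma alt_rot (L L' : List (A × B)) : IsConj (alt (L ++ L')) (alt (L' ++ L)) :=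
  isConj_iff.2 ⟨alt L', by rw [alt_append, alt_append]; group⟩

/-- Every element is conjugate into a factor or to a cyclically reduced alternating word. -/
lemma cyc_form (h : Monoid.Coprod A B) : ∃ x, IsConj h x ∧ ((∃ a, x = inl a) ∨ (∃ b, x = inr b) ∨
    ∃ L : List (A × B), L ≠ [] ∧ (∀ p ∈ L, p.1 ≠ 1 ∧ p.2 ≠ 1) ∧ x = alt L) := by
  obtain ⟨L, rfl⟩ := alt_surj h
  induction hn : L.length using Nat.strong_induction_on generalizing L with
  | _ n ih =>
  have step : ∀ L' : List (A × B), L'.length < n → IsConj (alt L) (alt L') → _ :=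
    fun L' h1 h2 => (ih _ h1 L' rfl).imp fun x hx => And.intro (h2.trans hx.1) hx.2
  by_cases hL : L = []
  · exact ⟨_, IsConj.refl _, Or.inl ⟨1, by rw [hL, map_one]; rfl⟩⟩
  by_cases h : ∀ p ∈ L, p.1 ≠ 1 ∧ p.2 ≠ 1
  · exact ⟨_, IsConj.refl _, Or.inr (Or.inr ⟨L, hL, h, rfl⟩)⟩
  push Not at h
  obtain ⟨p, hp, h⟩ := h
  obtain ⟨L₁, L₂, rfl⟩ := List.append_of_mem hp
  have len : (L₂ ++ L₁).length + 1 = n := by
    simp only [List.length_append, List.length_cons] at hn ⊢
    omega
  by_cases h1 : p.1 = 1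
  · have c : IsConj (alt (L₁ ++ p :: L₂)) (alt ((L₂ ++ L₁) ++ [p])) := by
      simpa using alt_rot (L₁ ++ [p]) L₂
    rcases List.eq_nil_or_concat (L₂ ++ L₁) with e | ⟨R, q, e⟩
    · exact ⟨_, c, Or.inr (Or.inl ⟨p.2, by rw [e]; simp [alt, h1]⟩)⟩
    · rw [e] at c len
      refine step (R ++ [(q.1, q.2 * p.2)]) (by simp at len ⊢; omega) ?_
      convert c using 1
      simp [alt, h1, mul_assoc]
  · have h2 := h h1
    have c : IsConj (alt (L₁ ++ p :: L₂)) (alt (p :: (L₂ ++ L₁))) := alt_rot L₁ (p :: L₂)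
    rcases e : L₂ ++ L₁ with _ | ⟨q, R⟩
    · exact ⟨_, c, Or.inl ⟨p.1, by rw [e]; simp [alt, h2]⟩⟩
    · rw [e] at c len
      refine step ((p.1 * q.1, q.2) :: R) (by simp at len ⊢; omega) ?_
      convert c using 1
      simp [alt, h2, mul_assoc]

end Pool.Agent.P.MP_67c9d4_al.VT
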