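import Pool.Agent.P.MP_67c9d4_al.VT.Vc

/-! Property (VRC) is detected on the mapping tori with finitely generated fibre. -/

set_option autoImplicit false

namespace Pool.Agent.P.MP_67c9d4_al.VT

open Equiv Wr Multiplicative FC FR

theorem stab (X : Type) (Φ : MulAut (FreeGroup X)) (A : Subgroup (FreeGroup X))
    (n : ℕ) (b : Fin n → FreeGroup X) (hA : A.FG) (hL : Line Φ A b) (k₁ : ℕ) :
    ∃ (k : ℕ) (J : Type) (_ : Finite J) (v : J → FreeGroup X), 0 < k ∧ k₁ ≤ k ∧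
      Cusp (Vk Φ A k) A (Φ ^ k) v := by
  obtain ⟨k₀, E, _, D, hS⟩ := a_STAB1 X Φ A n b hA hL
  have := Fintype.ofFinite E
  choose m hm0 hm using STAB_per (Φ := Φ) (D := D) (a_STAB2 X Φ A n b k₀ E D hA hL hS)
  have hp : 0 < ∏ e, m e := Finset.prod_pos fun e _ => hm0 e
  obtain ⟨k, hk0, hk1, hk3, hk2⟩ : ∃ k, 0 < k ∧ k₀ ≤ k ∧ k₁ ≤ k ∧ ∀ e, m e ∣ k :=
    ⟨(k₀ + k₁ + 1) * ∏ e, m e, by positivity, by nlinarith, by nlinarith, fun e =>
      (Finset.dvd_prod_of_mem m (Finset.mem_univ e)).mul_left _⟩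
  have hr : ∀ e, STAB_Rel Φ D k e e := fun e => by
    obtain ⟨j, hj⟩ := hk2 e
    rw [hj]
    exact STAB_pow (hm e) j
  choose w hw using hr
  obtain ⟨v, hv, hD⟩ := hS k hk1
  obtain ⟨-, h2, -, -, h5⟩ := a_LINE _ Φ A n b hL
  have hβ : ∀ e, w e * (v e)⁻¹ ∈ im (Φ ^ k) A := fun e => by
    obtain ⟨⟨d, hd⟩, hd1⟩ := Subgroup.ne_bot_iff_exists_ne_one.1 (hv.ne e)
    have h1 : (w e)⁻¹ * (Φ ^ k) d * w e ∈ Dv A (im (Φ ^ k) A) (v e) := by
      rw [hD] at hd ⊢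
      exact (hw e d).1 hd
    have h3 := mem_im.1 (mem_Dv.1 h1).2
    refine mem_im.2 (h5 _ d (mem_Dv.1 hd).1 (fun h => hd1 (Subtype.ext h)) ?_)
    simpa only [map_mul, map_inv, MulAut.inv_apply_self, mul_inv_rev, inv_inv, mul_assoc] using h3
  have hc : ∀ e, Dc (im (Φ ^ k) A) (v e) A (w e) := fun e =>
    ⟨_, hβ e, 1, A.one_mem, by simp⟩
  have hDw : ∀ e, Dv A (im (Φ ^ k) A) (w e) = D e := fun e => by
    have h1 := Dv_mul (v := v e) (hβ e) A.one_mem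
    rw [inv_one, cj_one, hD] at h1
    simpa using h1
  have hR : Rp (Vk Φ A k) A (im (Φ ^ k) A) w := by
    refine ⟨fun e => ?_, fun e => ?_, fun e e' h => hv.dist e e' (((hc e).trans h).trans (hc e').symm),
      fun g hg hne => ?_⟩
    · simpa using (Vk Φ A k).mul_mem (im_le_Vk le_rfl (hβ e)) (hv.mem e)
    · rw [hDw, ← hD]; exact hv.ne e
    · obtain ⟨j, hj⟩ := hv.cover g hg hne
      exact ⟨j, (hc j).symm.trans hj⟩
  refine ⟨k, E, inferInstance, w, hk0, hk3, hR, ?_, fun e d => by rw [hDw]; exact hw e d⟩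
  obtain ⟨n', c, hc'⟩ := h2 k 0
  rw [Vk_zero, add_zero] at hc'
  exact (a_CMPA X E A _ hA ⟨fun e => Dv_le _, hR.ne,
    a_KUR _ _ E A _ _ c w hc' (le_Vk k) hR.mem hR.dist⟩).2.2.2.1

theorem struct (X : Type) (φ : MulAut (FreeGroup X)) (hfg : Group.FG (MT φ)) (x₀ : FreeGroup X) :
    ∃ (k : ℕ) (Y : Type) (_ : Finite Y) (S : Set Y) (Θ : MulAut (FreeGroup Y))
      (i : FreeGroup Y →* MT (φ ^ k)) (t : MT (φ ^ k)) (J : Type) (_ : Finite J)
      (v : J → FreeGroup Y), 0 < k ∧ IsHN i (FS S) Θ t ∧ Cusp ⊤ (FS S) Θ v ∧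
      (∀ x, (i x).right = 1) ∧ t.right ≠ 1 ∧ ∃ (y : FreeGroup Y) (m : ℕ),
        (i y).left = (φ ^ m) x₀ := by
  obtain ⟨A0, hA0, hG0⟩ := STRUCT_gt φ hfg
  obtain ⟨A, n, b, hA, hL⟩ := a_BOTH X φ A0 hA0 hG0
  obtain ⟨l1, l2, l3, -⟩ := a_LINE _ φ A n b hL
  obtain ⟨m, hm⟩ := l3 x₀
  obtain ⟨k, J, hJ, v, hk, hk', hC⟩ := stab X φ A n b hA hL (2 * m)
  have f1 : Fc A (Vk φ A k) := by simpa [Vk_zero] using l1 0 k
  have f2 : Fc (im (φ ^ k) A) (Vk φ A k) := by simpa [Vk_zero] using l2 k 0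
  obtain ⟨Y, hY, S, ι, Θ, hι, hr, hS, hΘ⟩ := a_BAS X (φ ^ k) A (Vk φ A k) hA f1 f2
  have hv : ∀ j, ∃ y, ι y = v j := fun j => (hr.ge (hC.rep.mem j) : v j ∈ ι.range)
  choose v' hv' using hv
  obtain rfl : v = fun j => ι (v' j) := funext fun j => (hv' j).symm
  refine ⟨k, Y, hY, S, Θ, SemidirectProduct.inl.comp ι, (SemidirectProduct.inr (ofAdd 1))⁻¹, J, hJ,
    v', hk, ⟨SemidirectProduct.inl_injective.comp hι, fun a ha => ?_, ?_, fun W _ f w hw => ?_⟩,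
    STRUCT_cusp hι hΘ (by rw [hr, hS]; exact hC), fun x => rfl, ?_, ?_⟩
  · have e2 := SemidirectProduct.inl_aut (φ := zpowersHom _ (φ ^ k)) (ofAdd 1) (ι a)
    rw [inv_inv, MonoidHom.comp_apply, MonoidHom.comp_apply, hΘ a ha, ← map_inv, ← e2]
    simp
  · refine STRUCT_gen φ A hL.gt hk _ (fun x hx => ?_) ?_
    · obtain ⟨y, rfl⟩ := hr.ge hx
      exact Subgroup.subset_closure (Or.inl ⟨y, rfl⟩)
    · exact (Subgroup.inv_mem_iff _).1 (Subgroup.subset_closure (Or.inr rfl))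
  · have li := Function.leftInverse_invFun hι
    obtain ⟨g, g1, g2⟩ := a_UP _ φ A n b hL k hk W (fun x => f (Function.invFun ι x)) w (by
      intro x hx y hy
      obtain ⟨x, rfl⟩ := hr.ge hx
      obtain ⟨y, rfl⟩ := hr.ge hy
      simp only [← map_mul ι, li _, map_mul f]) (by
      intro a ha
      obtain ⟨a', ha', rfl⟩ := hS.ge ha
      simp only [← hΘ a' ha', li _, hw a' ha'])
    refine ⟨slift g w⁻¹ fun x => by rw [g2, inv_inv], fun x => ?_, ?_⟩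
    · simp [slift_apply, g1 _ (hr.le ⟨x, rfl⟩), li _]
    · rw [map_inv]
      simp [slift_apply]
  · intro h
    have := congrArg toAdd h
    simp at this
  · obtain ⟨y, hy⟩ := hr.ge (Vk_mono hk' (hm m le_rfl))
    exact ⟨y, m, hy⟩

theorem kj (G J : Type) [Group G] [Finite J] : ∀ P : J → Subgroup G, (∀ j, VC (P j)) →
    ∃ (K : Type) (_ : Group K) (ι : J → G → K) (ψ : K →* G), VC K ∧
      (∀ j, Hm (P j) (ι j)) ∧ ∀ j, ∀ x ∈ P j, ψ (ι j x) = x := by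
  refine Finite.induction_empty_option (P := fun J => ∀ P : J → Subgroup G,
    (∀ j, VC (P j)) → ∃ (K : Type) (_ : Group K) (ι : J → G → K) (ψ : K →* G),
      VC K ∧ (∀ j, Hm (P j) (ι j)) ∧ ∀ j, ∀ x ∈ P j, ψ (ι j x) = x)
    (fun e ih P h => ?_) (fun P _ => ?_) (fun ih P h => ?_) J
  · obtain ⟨K, _, ι, ψ, h1, h2, h3⟩ := ih (P ∘ e) fun j => h (e j)
    exact ⟨K, _, fun j => ι (e.symm j), ψ, h1, fun j => by simpa using h2 (e.symm j),
      fun j => by simpa using h3 (e.symm j)⟩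
  · exact ⟨FreeGroup Empty, inferInstance, fun _ _ => 1, 1, vc_free _,
      fun j => j.elim, fun j => j.elim⟩
  · obtain ⟨K, _, ι, ψ, h1, h2, h3⟩ := ih (fun j => P (some j)) fun j => h (some j)
    obtain ⟨g, g1, g2⟩ := exists_hm (Monoid.Coprod.inr : P none →* Monoid.Coprod K (P none))
    refine ⟨Monoid.Coprod K (P none), inferInstance,
      fun j => j.elim g fun j x => Monoid.Coprod.inl (ι j x),
      Monoid.Coprod.lift ψ (P none).subtype, h1.coprod (h none), ?_, ?_⟩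
    · rintro (_ | j)
      exacts [g1, (h2 j).comp _]
    · rintro (_ | j) x hx
      · exact congrArg _ (g2 ⟨x, hx⟩)
      · exact h3 j x hx

theorem model (Y G J : Type) [Finite Y] [Group G] [Finite J] (S : Set Y)
    (Θ : MulAut (FreeGroup Y)) (i : FreeGroup Y →* G) (t : G) (v : J → FreeGroup Y)
    (hHN : IsHN i (FS S) Θ t) (hC : Cusp ⊤ (FS S) Θ v)
    (hVP : ∀ j, VC (Tor i (FS S) Θ t (v j))) :
    ∃ (H : Type) (_ : Group H) (f : FreeGroup Y →* H), Function.Injective f ∧ VC H ∧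
      Tw f (FS S) Θ v := by
  classical
  obtain ⟨K, _, ι, ψ, hK, hι, hψ⟩ := kj G J (fun j => Tor i (FS S) Θ t (v j)) hVP
  have hB : FF (im Θ (FS S)) (fun x : {x // x ∉ S} => Θ (FreeGroup.of x.1)) ⊤ := by
    have := (ff_FS S).im Θ
    rwa [show im Θ (⊤ : Subgroup (FreeGroup Y)) = ⊤ from
      eq_top_iff.2 fun x _ => mem_im.2 trivial] at this
  have hA : (FS S).FG := (Subgroup.fg_iff _).2 ⟨_, rfl, S.toFinite.image _⟩
  have mT : ∀ j, ∀ x ∈ Dv (FS S) (im Θ (FS S)) (v j), i x ∈ Tor i (FS S) Θ t (v j) :=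
    fun j x hx => Subgroup.mem_sup_left ⟨x, hx, rfl⟩
  obtain ⟨E, _, fA, ψ', hfA, hψ', hκ⟩ := a_KEMB (FreeGroup Y) _ J K G (FS S) (im Θ (FS S)) _ v
    (fun j x => ι j (i x)) ψ i hB hA hC.rep (fun j => (hι j).comp' (hm_hom _ i) (mT j))
    fun j x hx => hψ j _ (mT j x hx)
  have hH := (hK.coprod (vc_free E)).coprod (vc_free {x // x ∉ S})
  obtain ⟨g, hg, hgA, hgc⟩ := (ff_FS S).2
    (Monoid.Coprod (Monoid.Coprod K (FreeGroup E)) (FreeGroup {x // x ∉ S}))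
    (fun a => Monoid.Coprod.inl (fA a)) (fun x => Monoid.Coprod.inr (FreeGroup.of x))
    (fun a ha b hb => by simp only [hfA a ha b hb, map_mul])
  have hΨ : ∀ x, Monoid.Coprod.lift ψ'
      (FreeGroup.lift fun x : {x // x ∉ S} => i (FreeGroup.of x.1)) (g x) = i x := fun x =>
    (ff_FS S).ext (hg.comp _) (hm_hom _ i) (fun a ha => by rw [hgA a ha]; simp [hψ' a ha])
      (fun x => by rw [hgc]; simp) x trivial
  have inj : Function.Injective g := fun x y e => hHN.inj (by rw [← hΨ, ← hΨ, e])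
  refine ⟨_, inferInstance, hg.top, inj, hH, fun j => ?_⟩
  obtain ⟨κ, hκ⟩ := hκ j
  have hu : t * i (v j) ∈ Tor i (FS S) Θ t (v j) :=
    Subgroup.mem_sup_right (Subgroup.mem_zpowers _)
  refine ⟨Monoid.Coprod.inl (κ * Monoid.Coprod.inl (ι j (t * i (v j))) * κ⁻¹), fun x hx => ?_⟩
  have hx' := (hC.inv j x).1 hx
  have e : i ((v j)⁻¹ * Θ x * v j) = (t * i (v j))⁻¹ * i x * (t * i (v j)) := by
    rw [map_mul, map_mul, map_inv, ← hHN.rel x (Dv_le _ hx)]; group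
  have e' : ι j (i ((v j)⁻¹ * Θ x * v j)) =
      (ι j (t * i (v j)))⁻¹ * ι j (i x) * ι j (t * i (v j)) := by
    rw [e, hι j _ (mul_mem (inv_mem hu) (mT j x hx)) _ hu, hι j _ (inv_mem hu) _ (mT j x hx),
      (hι j).inv hu]
  rw [Hm.top_apply, Hm.top_apply, hgA x (Dv_le _ hx), hgA _ (Dv_le _ hx'), hκ x hx, hκ _ hx', e']
  simp only [map_mul, map_inv]
  group

theorem top (Y G J : Type) [Finite Y] [Group G] [Finite J] (S : Set Y)
    (Θ : MulAut (FreeGroup Y)) (i : FreeGroup Y →* G) (t : G) (v : J → FreeGroup Y)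
    (hHN : IsHN i (FS S) Θ t) (hC : Cusp ⊤ (FS S) Θ v)
    (hVP : ∀ j, VC (Tor i (FS S) Θ t (v j))) {y : FreeGroup Y} (hy : y ≠ 1) : Sees (i y) := by
  obtain ⟨H, _, f, inj, hH, tw⟩ := model Y G J S Θ i t v hHN hC hVP
  obtain ⟨Λ, h1, h2⟩ := (hH (f y) fun e => hy ((map_eq_one_iff f inj).1 e)).vp
  refine sees_vs (a_GLU Y J G H S Θ v i t f Λ hHN hC tw h1) ⟨y, rfl⟩ fun n hn e => h2 n hn ?_
  rw [← map_pow, Subgroup.mem_map_iff_mem hHN.inj, Subgroup.mem_comap, map_pow] at e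
  exact e

theorem redn (X : Type) (φ : MulAut (FreeGroup X)) (hG : Group.FG (MT φ))
    (h : ∀ (M : Subgroup (MT φ)) (g : MT φ), M.FG → (∀ m ∈ M, m.right = 1) → g.right ≠ 1 →
      (∀ m, m ∈ M ↔ g⁻¹ * m * g ∈ M) → VRC (M ⊔ Subgroup.zpowers g : Subgroup (MT φ))) :
    VRC (MT φ) := by
  refine VC.vrc fun x hx1 => ?_
  by_cases hr : x.right = 1
  swap
  · exact ⟨⊤, inferInstance, SemidirectProduct.rightHom.comp (Subgroup.subtype _), 1, trivial,
      by simpa using hr⟩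
  have hx : x = SemidirectProduct.inl x.left := SemidirectProduct.ext rfl hr
  obtain ⟨k, Y, _, S, Θ, i, t, J, _, v, hk, hHN, hC, hi, ht, y, m, hy⟩ := struct X φ hG x.left
  have inj := PG.FINh.pw_inj φ hk
  have fi : (PG.FINh.pw φ k).range.FiniteIndex := ⟨by
    rw [PG.FINh.pw_range,
      Subgroup.index_comap_of_surjective _ SemidirectProduct.rightHom_surjective]
    have : (Subgroup.zpowers (Multiplicative.ofAdd (k : ℤ))).index = (k : ℤ).natAbs :=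
      Int.index_zmultiples (k : ℤ)
    rw [this]
    simpa using hk.ne'⟩
  have cg : IsConj x (PG.FINh.pw φ k (i y)) := by
    refine isConj_iff.2 ⟨SemidirectProduct.inr (ofAdd (m : ℤ)), ?_⟩
    have e1 : PG.FINh.pw φ k (i y) = SemidirectProduct.inl ((φ ^ m) x.left) :=
      SemidirectProduct.ext hy (by
        change (i y).right ^ k = 1
        rw [hi, one_pow])
    rw [e1, hx, ← map_inv, ← SemidirectProduct.inl_aut]
    simp
  refine Sees.conj cg (Sees.map inj fi (top Y _ J S Θ i t v hHN hC (fun j => ?_) fun e => ?_))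
  swap
  · rw [e, map_one, map_one] at cg
    exact hx1 (isConj_one_left.1 cg)
  set D := Dv (FS S) (im Θ (FS S)) (v j) with hD
  have fg : (D.map i).FG := map_fg (hC.fg j) i
  have cj : ∀ x ∈ D, (t * i (v j))⁻¹ * i x * (t * i (v j)) = i ((v j)⁻¹ * Θ x * v j) :=
    fun x hx => by rw [map_mul, map_mul, map_inv, ← hHN.rel x (Dv_le _ hx)]; group
  have vs := h ((D.map i).map (PG.FINh.pw φ k)) (PG.FINh.pw φ k (t * i (v j))) (map_fg fg _)
    (by
      rintro _ ⟨_, ⟨x, -, rfl⟩, rfl⟩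
      change (i x).right ^ k = 1
      rw [hi, one_pow])
    (by
      change (t * i (v j)).right ^ k ≠ 1
      rw [SemidirectProduct.mul_right, hi, mul_one]
      exact fun e => ht ((pow_eq_one_iff_left hk.ne').1 e))
    (fun m => by
      constructor
      · rintro ⟨_, ⟨x, hx, rfl⟩, rfl⟩
        refine ⟨_, ⟨_, (hC.inv j x).1 hx, rfl⟩, ?_⟩
        rw [← cj x hx, map_mul, map_mul, map_inv]
      · rintro ⟨_, ⟨x, hx, rfl⟩, e⟩
        have e1 : (v j)⁻¹ * Θ (Θ⁻¹ (v j * x * (v j)⁻¹)) * v j = x := by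
          rw [MulAut.apply_inv_self]; group
        have hx' : Θ⁻¹ (v j * x * (v j)⁻¹) ∈ D := (hC.inv j _).2 (e1.symm ▸ hx)
        refine ⟨_, ⟨_, hx', rfl⟩, ?_⟩
        rw [← e1, ← cj _ hx', map_mul, map_mul, map_inv] at e
        exact mul_left_cancel (mul_right_cancel e))
  have e : (D.map i).map (PG.FINh.pw φ k) ⊔ Subgroup.zpowers (PG.FINh.pw φ k (t * i (v j))) =
      (Tor i (FS S) Θ t (v j)).map (PG.FINh.pw φ k) := by
    rw [Tor, Subgroup.map_sup, MonoidHom.map_zpowers]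
  rw [e] at vs
  let ε := (Tor i (FS S) Θ t (v j)).equivMapOfInjective _ inj
  exact vc_of_vrc ((a_SPV.2.1 _ _ ε.toMonoidHom ε.injective).2.1 vs) fun g hg =>
    Subtype.ext (mt_tf _ _ ((Subgroup.subtype _).isOfFinOrder hg))

end Pool.Agent.P.MP_67c9d4_al.VT
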