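import Pool.Agent.P.MP_67c9d4_al.VT.Alt
import Pool.Agent.P.MP_67c9d4_al.FR.All
import Pool.Agent.P.MP_67c9d4_al.SP.Vrc

/-! Elements seen by virtual characters. -/

set_option autoImplicit false

namespace Pool.Agent.P.MP_67c9d4_al.VT

open Equiv Wr Multiplicative FC FR

variable {G H : Type} [Group G] [Group H]

/-- A virtual character does not vanish at a power of `g`. -/
def Sees (g : G) : Prop :=
  ∃ (M : Subgroup G) (_ : M.FiniteIndex) (f : M →* MZ) (m : ℕ) (hm : g ^ m ∈ M), f ⟨_, hm⟩ ≠ 1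

/-- All nontrivial elements are seen by virtual characters. -/
def VC (G : Type) [Group G] : Prop := ∀ g : G, g ≠ 1 → Sees g

lemma Sees.comap (π : G →* H) {g : G} (h : Sees (π g)) : Sees g := by
  obtain ⟨M, _, f, m, hm, hf⟩ := h
  refine ⟨M.comap π, fi_comap M π, f.comp (π.subgroupComap M), m, (map_pow π g m ▸ hm :), ?_⟩
  convert hf using 1
  exact congrArg f (Subtype.ext (map_pow π g m))

lemma Sees.conj {g g' : G} (e : IsConj g g') (h : Sees g') : Sees g := by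
  obtain ⟨c, rfl⟩ := isConj_iff.1 e
  exact Sees.comap (MulAut.conj c).toMonoidHom h

lemma Sees.of_pow {g : G} {n : ℕ} (h : Sees (g ^ n)) : Sees g := by
  obtain ⟨M, _, f, m, hm, hf⟩ := h
  refine ⟨M, ‹_›, f, n * m, pow_mul g n m ▸ hm, ?_⟩
  convert hf using 3
  exact pow_mul g n m

lemma Sees.map {j : G →* H} (hj : Function.Injective j) (hr : j.range.FiniteIndex) {g : G}
    (h : Sees g) : Sees (j g) := by
  obtain ⟨M, hM, f, m, hm, hf⟩ := h
  let e := M.equivMapOfInjective j hj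
  refine ⟨M.map j, ⟨?_⟩, f.comp e.symm.toMonoidHom, m, ⟨_, hm, map_pow j g m⟩, ?_⟩
  · rw [Subgroup.index_map_of_injective _ hj]
    exact mul_ne_zero hM.index_ne_zero hr.index_ne_zero
  · have : (⟨j g ^ m, ⟨_, hm, map_pow j g m⟩⟩ : M.map j) = e ⟨_, hm⟩ :=
      Subtype.ext (map_pow j g m).symm
    rw [this]
    simpa using hf

lemma sees_raag {T : Type} [Finite T] {Γ : SimpleGraph T} {b : RAAG Γ} (hb : b ≠ 1) : Sees b := by
  have : Group.FG (RAAG Γ) := Group.fg_of_surjective (PresentedGroup.mk_surjective _)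
  obtain ⟨M, hM, f, hm, hf⟩ := SP.RFRS.char
    (SP.rfrs_of_emb (MonoidHom.id (RAAG Γ)) Function.injective_id) hb
  exact ⟨M, hM, f, 1, (pow_one b).symm ▸ hm, by simpa using hf⟩

lemma sees_sub {K : Subgroup G} [K.FiniteIndex] {g : G} (hg : g ∈ K) (h : Sees (⟨g, hg⟩ : K)) :
    Sees g :=
  h.map K.subtype_injective (by rw [Subgroup.range_subtype]; infer_instance)

lemma sees_vp (h : VP (⊥ : Subgroup G)) {g : G} (hg : ¬IsOfFinOrder g) : Sees g := by
  obtain ⟨K, hK, T, _, Γ, f, hf⟩ := h.va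
  obtain ⟨m, hm, -, h1⟩ := Subgroup.exists_pow_mem_of_index_ne_zero hK.index_ne_zero g
  refine (sees_sub h1 (Sees.comap f (sees_raag fun e => hg ?_))).of_pow
  exact isOfFinOrder_iff_pow_eq_one.2
    ⟨m, hm, congrArg Subtype.val ((map_eq_one_iff f hf).1 e)⟩

lemma Sees.rf {g : G} (h : Sees g) : ∃ N, FN N ∧ g ∉ N := by
  obtain ⟨M, _, f, m, hm, hf⟩ := h
  obtain ⟨N, hN, h⟩ := FN.exists_dvd M f (m := (f ⟨_, hm⟩).toAdd.natAbs + 1) (by omega)
  refine ⟨N, hN, fun e => ?_⟩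
  obtain ⟨_, h⟩ := h _ (N.pow_mem e m)
  have h0 : (f ⟨_, hm⟩).toAdd ≠ 0 := fun e => hf (toAdd.injective e)
  have := Int.natAbs_le_of_dvd_ne_zero h h0
  omega

lemma vp_finite (Q : Type) [Group Q] [Finite Q] : VP (⊥ : Subgroup Q) :=
  ⟨⊥, inferInstance, Empty, inferInstance, ⊥, 1, ∅, fun g =>
    ⟨fun _ => g.2, fun _ => one_mem _⟩⟩

lemma VC.quot (h : VC G) (L : List G) (hL : ∀ g ∈ L, g ≠ 1) : ∃ N, FN N ∧ ∀ g ∈ L, g ∉ N := by
  induction L with
  | nil => exact ⟨⊤, FN.top, fun _ h => (List.not_mem_nil h).elim⟩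
  | cons a L ih =>
    obtain ⟨N, h1, h2⟩ := ih fun g hg => hL g (List.mem_cons_of_mem _ hg)
    obtain ⟨N', h3, h4⟩ := (h a (hL a List.mem_cons_self)).rf
    refine ⟨N ⊓ N', h1.inf h3, fun g hg e => ?_⟩
    rcases List.mem_cons.1 hg with rfl | hg
    exacts [h4 e.2, h2 g hg e.1]

lemma VC.coprod (h₁ : VC G) (h₂ : VC H) : VC (Monoid.Coprod G H) := by
  intro g hg
  obtain ⟨x, e, hx⟩ := cyc_form g
  have hx1 : x ≠ 1 := fun e' => hg (isConj_one_left.1 (e' ▸ e))
  refine Sees.conj e ?_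
  rcases hx with ⟨a, rfl⟩ | ⟨b, rfl⟩ | ⟨L, hL, h, rfl⟩
  · exact Sees.comap Monoid.Coprod.fst (h₁ a fun e' => hx1 (by rw [e', map_one]))
  · exact Sees.comap Monoid.Coprod.snd (h₂ b fun e' => hx1 (by rw [e', map_one]))
  · obtain ⟨N, ⟨n1, n2⟩, hN⟩ := h₁.quot (L.map Prod.fst) fun a ha => by
      obtain ⟨p, hp, rfl⟩ := List.mem_map.1 ha
      exact (h p hp).1
    obtain ⟨N', ⟨n3, n4⟩, hN'⟩ := h₂.quot (L.map Prod.snd) fun a ha => by
      obtain ⟨p, hp, rfl⟩ := List.mem_map.1 ha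
      exact (h p hp).2
    refine Sees.comap (Monoid.Coprod.map (QuotientGroup.mk' N) (QuotientGroup.mk' N'))
      (sees_vp (a_FP _ _ (vp_finite _) (vp_finite _)).1 ?_)
    rw [alt_map]
    refine alt_inf (by simpa using hL) fun q hq => ?_
    obtain ⟨p, hp, rfl⟩ := List.mem_map.1 hq
    exact ⟨fun e => hN _ (List.mem_map_of_mem hp) ((QuotientGroup.eq_one_iff _).1 e),
      fun e => hN' _ (List.mem_map_of_mem hp) ((QuotientGroup.eq_one_iff _).1 e)⟩

lemma vc_free (Y : Type) [Finite Y] : VC (FreeGroup Y) := fun _ hg =>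
  sees_vp (KJ_free Y) fun e => hg e.eq_one'

/-- The kernel of a virtual character that sees `g`. -/
lemma Sees.vp {g : G} (h : Sees g) : ∃ Λ : Subgroup G, VP Λ ∧ ∀ n : ℕ, 0 < n → g ^ n ∉ Λ := by
  obtain ⟨M, hM, f, m, hm, hf⟩ := h
  obtain ⟨r, hr⟩ := raag_lift (Γ := (⊥ : SimpleGraph Unit)) (fun _ => (ofAdd 1 : MZ))
    fun _ _ hab => hab.elim
  let e : MZ →* RAAG (⊥ : SimpleGraph Unit) := zpowersHom _ (PresentedGroup.of ())
  have e1 : ∀ z, r (e z) = z := fun z => by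
    simp [e, hr, ← ofAdd_zsmul]
  refine ⟨f.ker.map M.subtype, ⟨M, hM, Unit, inferInstance, ⊥, e.comp f, ∅, fun x => ?_⟩,
    fun n hn ⟨x, hx, e'⟩ => hf ?_⟩
  · rw [PS_empty, MonoidHom.comp_apply, map_eq_one_iff e (Function.LeftInverse.injective e1)]
    exact (Subgroup.mem_map_iff_mem (K := f.ker) (x := x) M.subtype_injective).symm
  · have : (⟨_, hm⟩ : M) ^ n = x ^ m := Subtype.ext (by
      have e'' : (x : G) = g ^ n := e'
      rw [Subgroup.coe_pow, Subgroup.coe_pow, e'', ← pow_mul, ← pow_mul, mul_comm])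
    have h1 : f ⟨_, hm⟩ ^ n = 1 := by
      rw [← map_pow, this, map_pow, (MonoidHom.mem_ker.1 hx), one_pow]
    exact (isOfFinOrder_iff_pow_eq_one.2 ⟨n, hn, h1⟩).eq_one'

lemma sees_vs {U Λ : Subgroup G} (h : VS U Λ) {g : G} (hg : g ∈ U)
    (hΛ : ∀ n : ℕ, 0 < n → g ^ n ∉ Λ) : Sees g := by
  obtain ⟨T, _, Γ, X, _, σ, ω, hω⟩ := h
  classical
  let K := (pHom.comp σ).ker
  obtain ⟨m, hm, -, h1⟩ := Subgroup.exists_pow_mem_of_index_ne_zero
    (H := K) Subgroup.FiniteIndex.index_ne_zero g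
  have h2 : ∃ x, (σ (g ^ m)).c x ≠ 1 := by
    by_contra! hc
    refine hΛ m hm ((hω _ (U.pow_mem hg m)).1 ?_)
    have : σ (g ^ m) = 1 := Wr.ext h1 (funext hc)
    rw [this, map_one]
    rfl
  obtain ⟨x, hx⟩ := h2
  let f : K →* RAAG Γ := MonoidHom.mk' (fun k => (σ k).c x) fun a b => by
    have ha : (σ a).p = 1 := a.2
    rw [Subgroup.coe_mul, map_mul, mul_c, ha]
    rfl
  exact (sees_sub h1 (Sees.comap f (sees_raag hx))).of_pow

/-- A cyclic subgroup whose generator is seen by a virtual character is a virtual retract. -/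
lemma Sees.retr {g : G} (h : Sees g) : ∃ K : Subgroup G, K.FiniteIndex ∧ Subgroup.zpowers g ≤ K ∧
    ∃ r : K →* Subgroup.zpowers g, ∀ x : K, (x : G) ∈ Subgroup.zpowers g → (r x : G) = x := by
  obtain ⟨M, hM, f, m, h2, hf⟩ := h
  obtain ⟨L, hL, ψ, h4, h5⟩ := SP.transfer_char f h2 hf
  let c := ψ ⟨g, h4⟩
  have hc : Function.Injective (zpowersHom MZ c) :=
    injective_zpow_iff_not_isOfFinOrder.2 fun h => h5 h.eq_one'
  let L' := (Subgroup.zpowers c).comap ψ
  have h6 : (Subgroup.zpowers c).FiniteIndex := ⟨by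
    have h9 : Subgroup.zpowers c = (AddSubgroup.zmultiples c.toAdd).toSubgroup := by
      ext x; simp only [Subgroup.mem_zpowers_iff, Multiplicative.mem_toSubgroup,
        AddSubgroup.mem_zmultiples_iff]
      exact exists_congr fun k => by rw [← toAdd_zpow]; exact toAdd.injective.eq_iff.symm
    rw [h9, AddSubgroup.index_toSubgroup, Int.index_zmultiples]
    exact Int.natAbs_ne_zero.2 fun h => h5 (toAdd.injective h)⟩
  have h7 := fi_comap (Subgroup.zpowers c) ψ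
  let e' := L'.equivMapOfInjective _ L.subtype_injective
  obtain ⟨ρ, hρ⟩ := exists_lift hc (ψ.comp (L'.subtype.comp e'.symm.toMonoidHom))
    fun x => (e'.symm x).2
  refine ⟨L'.map L.subtype, ⟨?_⟩, ?_, ((zpowersHom G g).comp ρ).codRestrict _
    fun x => ⟨_, rfl⟩, ?_⟩
  · rw [Subgroup.index_map_subtype]; exact mul_ne_zero h7.index_ne_zero hL.index_ne_zero
  · exact Subgroup.zpowers_le.2 ⟨⟨g, h4⟩, Subgroup.mem_zpowers _, rfl⟩
  · rintro x ⟨k, hk⟩
    have h8 : ρ x = ofAdd k := hc (by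
      rw [hρ]
      have : L'.subtype (e'.symm x) = ⟨g, h4⟩ ^ k := Subtype.ext (by
        have := congrArg Subtype.val (e'.apply_symm_apply x)
        exact this.trans hk.symm)
      simp only [MonoidHom.comp_apply, MulEquiv.coe_toMonoidHom, this, map_zpow]
      rfl)
    change zpowersHom G g (ρ x) = x
    rw [h8]; exact hk

lemma VC.vrc (h : VC G) : VRC G := fun g => by
  by_cases hg : g = 1
  · subst hg
    exact ⟨⊤, inferInstance, le_top, 1, fun x hx => by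
      rw [Subgroup.zpowers_one_eq_bot, Subgroup.mem_bot] at hx
      rw [hx]; rfl⟩
  · exact (h g hg).retr

lemma vc_of_vrc (h : VRC G) (tf : ∀ g : G, IsOfFinOrder g → g = 1) : VC G := fun g hg => by
  obtain ⟨K, hK, f, hm, hf⟩ := h.vr g (mt (tf g) hg)
  refine ⟨K, hK, f, 1, (pow_one g).symm ▸ hm, ?_⟩
  simp only [pow_one, hf]
  decide

lemma mt_tf {X : Type} (φ : MulAut (FreeGroup X)) (g : MT φ) (h : IsOfFinOrder g) : g = 1 := by
  have h1 : g.right = 1 := (SemidirectProduct.rightHom.isOfFinOrder h).eq_one'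
  have h2 : g = SemidirectProduct.inl g.left := SemidirectProduct.ext rfl h1
  rw [h2] at h ⊢
  rw [((Function.Injective.isOfFinOrder_iff SemidirectProduct.inl_injective).1 h).eq_one', map_one]

end Pool.Agent.P.MP_67c9d4_al.VT
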